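import Pool.Agent.Helper66_ML.Stmts2
import Pool.Agent.Helper77_ML.Fin

/-!
# Squad ML, stage 2, row GEN (helper43, adapted from helper77): from `O_ℓ(G) = 1` to central
`O_ℓ(G)`, for a class of groups closed under subgroups
-/

open scoped BigOperators

set_option linter.unusedSectionVars false

noncomputable section

namespace Pool.Agent.PP.ML.H43

open Pool.Agent.Helper51_AWC Pool.Agent.Helper79_WRA Pool.Agent.PP Pool.Agent.PP.ML

/-- Row GEN. -/
theorem gen : GenStmt := by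
  classical
  intro ℓ hfact M _ hM 𝒟 m h𝒟 hgood G _ _ hc χ hχ hL hS
  let _ := Ideal.Quotient.field M
  have hℓ : ℓ.Prime := hfact.out
  have hF : GoodF ℓ (FF M) := H50.fld ℓ hℓ M hM
  have hn : (opCore ℓ G).Normal := H75.opCore_normal (A := G) ℓ
  obtain ⟨e, he, h1, h2⟩ := H50.bid ℓ hℓ M hM G χ hχ
  set p : G →* G ⧸ opCore ℓ G := QuotientGroup.mk' (opCore ℓ G) with hp
  have hker : p.ker = opCore ℓ G := QuotientGroup.ker_mk' _
  have hsurj : Function.Surjective p := QuotientGroup.mk'_surjective (opCore ℓ G)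
  have hkp : IsPGroup ℓ p.ker := by
    rw [hker]
    exact H75.opCore_isPGroup hℓ
  have hkc : p.ker ≤ Subgroup.center G := by
    rw [hker]
    exact hc
  have hO : opCore ℓ (G ⧸ opCore ℓ G) = ⊥ := H77.opCore_quot ℓ G
  have hpos : Pos ℓ (H75.push p e) (⊤ : Subgroup (G ⧸ opCore ℓ G)) :=
    H75.pos_push hℓ hM hsurj hker hkp hkc hχ he h1 hL
  have heq := H75.altSum_central H20.nls H20.brm H63.smt H94.nch
    (H50.dic H20.ibn H20.nls H20.brm) hℓ M hM hF hsurj hker hkp hkc χ hχ e he h1 h2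
  have hsub : DF.SubCl 𝒟 := fun Q R _ _ j hj hR => h𝒟 Q R j hj hR
  have hdi : DF.DfIn ℓ M 𝒟 χ := by
    obtain ⟨x, P, hx, hP⟩ := hS
    refine ⟨x, P, fun hr => hx ?_, hP⟩
    have hint : IsIntegral ℤ (omega (MonoidHom.id G) χ x) :=
      Pool.Agent.Helper51_AWC.omega_integral _ hχ x
    rw [← Pool.Agent.Helper79_WRA.red_eq_iff hint isIntegral_zero, hr,
      Pool.Agent.Helper79_WRA.red_zero]
  have hdf : DF.DfE ℓ 𝒟 (H75.push p e) (⊤ : Subgroup (G ⧸ opCore ℓ G)) := by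
    rintro Q - hQ ⟨g, hg, hg'⟩
    refine DF.H43.core3 D1.H9.inv hℓ hM H50.fld hsub hsurj hker hχ he h1 hdi Q hQ ?_
    intro h0
    apply hg'
    have h3 := congrFun h0 g
    unfold Pool.Agent.PP.br at h3
    rwa [if_pos hg] at h3
  have hidem : IsIdem (H75.push p e) := H75.push_isIdem hsurj he.1
  have hdiv : ((m * Nat.card (G ⧸ opCore ℓ G) : ℕ) : ℤ) ∣
      YY ℓ (⊤ : Subgroup (G ⧸ opCore ℓ G)) (H75.push p e) := by
    apply H77.add_dvd hF _ _ _ hidem
    intro f hf hef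
    have hfe : mulF f (H75.push p e) = f := by
      rw [H75.mulF_comm_cl hf.1.1]
      exact hef
    have hposf : Pos ℓ f ⊤ := H46.pos_mono hf.1 hfe hpos
    have hdff : DF.DfE ℓ 𝒟 f ⊤ := DF.DfE.le hF hidem.1 hf.1.1 hef hdf
    obtain ⟨ϑ, hϑ, k1, k2, k3⟩ := H75.block_case H20.nls H20.brm H63.smt H94.nch
      (H50.dic H20.ibn H20.nls H20.brm) H50.bid H50.chp H50.ldp H50.fld hℓ hM hO hf hposf
    obtain ⟨c, hcc⟩ := hgood (G ⧸ opCore ℓ G) hO f hf hposf hdff ϑ hϑ k1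
    refine ⟨c, ?_⟩
    rw [← k3, hcc]
    push_cast
    ring
  obtain ⟨c, hcc⟩ := hdiv
  have hcard : Nat.card G = Nat.card (G ⧸ opCore ℓ G) * Nat.card (opCore ℓ G) :=
    Subgroup.card_eq_card_quotient_mul_card_subgroup (opCore ℓ G)
  rw [hcc, hker, hcard] at heq
  have hq : ((Nat.card (G ⧸ opCore ℓ G) : ℕ) : ℤ) ≠ 0 := by
    exact_mod_cast (Nat.card_pos (α := G ⧸ opCore ℓ G)).ne'
  have hz : ((Nat.card (opCore ℓ G) : ℕ) : ℤ) ≠ 0 := by
    exact_mod_cast (Nat.card_pos (α := opCore ℓ G)).ne'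
  refine ⟨c, mul_left_cancel₀ (mul_ne_zero hq hz) ?_⟩
  push_cast at heq ⊢
  rw [heq]
  ring

end Pool.Agent.PP.ML.H43
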