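import Pool.Agent.Helper66_ML.Stmts2
import Pool.Agent.Helper47_WRA.Dzt

/-!
# Squad ML, stage 2, rows ORD and TEI (helper43)
-/

open scoped BigOperators

noncomputable section

namespace Pool.Agent.PP.ML.H43

open Pool.Agent.Helper51_AWC Pool.Agent.Helper79_WRA Pool.Agent.PP Pool.Agent.Helper98_CC

variable {M : Ideal (integralClosure ℤ ℂ)}

theorem isInt_FF (w : FF M) : IsIntegral ℤ w := by
  obtain ⟨a, rfl⟩ := Ideal.Quotient.mk_surjective w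
  have h1 : IsIntegral ℤ a := integralClosure.isIntegral a
  exact h1.map (Ideal.Quotient.mkₐ ℤ M)

/-- Row ORD. -/
theorem ord : OrdStmt := by
  intro ℓ _ M _ hℓ w hw
  have hch : CharP (FF M) ℓ := Pool.Agent.Helper79_WRA.H47.charP_FF (M := M) hℓ
  let _ : Algebra (ZMod ℓ) (FF M) := ZMod.algebra _ ℓ
  have htower : IsScalarTower ℤ (ZMod ℓ) (FF M) :=
    IsScalarTower.of_algebraMap_eq' (RingHom.ext_int _ _)
  have hint2 : IsIntegral (ZMod ℓ) w := (isInt_FF w).tower_top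
  have hfin : Module.Finite (ZMod ℓ) (Algebra.adjoin (ZMod ℓ) ({w} : Set (FF M))) :=
    Algebra.finite_adjoin_simple_of_isIntegral hint2
  have hfin2 : Finite (Algebra.adjoin (ZMod ℓ) ({w} : Set (FF M))) :=
    Module.finite_of_finite (ZMod ℓ)
  obtain ⟨i, j, hij, he⟩ := Finite.exists_ne_map_eq_of_infinite
    (fun n : ℕ => (⟨w ^ n, pow_mem (Algebra.subset_adjoin (Set.mem_singleton w)) n⟩ :
      Algebra.adjoin (ZMod ℓ) ({w} : Set (FF M))))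
  have he' : w ^ i = w ^ j := congrArg Subtype.val he
  have key : ∀ i j : ℕ, i < j → w ^ i = w ^ j → ∃ E : ℕ, 0 < E ∧ w ^ E = 1 := by
    intro i j h e
    refine ⟨j - i, by omega, ?_⟩
    have e2 : w ^ i * w ^ (j - i) = w ^ i * 1 := by
      rw [← pow_add, mul_one, e]
      congr 1
      omega
    exact mul_left_cancel₀ (pow_ne_zero i hw) e2
  rcases lt_or_gt_of_ne hij with h | h
  · exact key i j h he'
  · exact key j i h he'.symm

/-- the order is prime to `ℓ` -/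
theorem ord' (ℓ : ℕ) [hp : Fact ℓ.Prime] (M : Ideal (integralClosure ℤ ℂ)) [M.IsMaximal]
    (hℓ : (ℓ : integralClosure ℤ ℂ) ∈ M) (w : FF M) (hw : w ≠ 0) :
    ∃ n : ℕ, ¬ ℓ ∣ n ∧ w ^ n = 1 := by
  have hch : CharP (FF M) ℓ := Pool.Agent.Helper79_WRA.H47.charP_FF (M := M) hℓ
  obtain ⟨E, hE, h1⟩ := ord ℓ M hℓ w hw
  obtain ⟨a, n, hn, rfl⟩ := Nat.exists_eq_pow_mul_and_not_dvd hE.ne' ℓ hp.out.ne_one
  refine ⟨n, hn, ?_⟩
  have h2 : (w ^ n - 1) ^ ℓ ^ a = 0 := by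
    rw [sub_pow_char_pow, one_pow, ← pow_mul, mul_comm n, h1, sub_self]
  exact sub_eq_zero.1 (pow_eq_zero_iff (pow_ne_zero _ hp.out.ne_zero) |>.1 h2)

theorem isInt_root {ζ : ℂ} {n : ℕ} (hn : n ≠ 0) (h : ζ ^ n = 1) : IsIntegral ℤ ζ := by
  refine IsIntegral.of_pow (Nat.pos_of_ne_zero hn) ?_
  rw [h]
  exact isIntegral_one

theorem exists_lift (ℓ : ℕ) [hp : Fact ℓ.Prime] (M : Ideal (integralClosure ℤ ℂ)) [M.IsMaximal]
    (hℓ : (ℓ : integralClosure ℤ ℂ) ∈ M) (w : FF M) (hw : w ≠ 0) :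
    ∃ ζ : ℂ, ∃ n : ℕ, ¬ ℓ ∣ n ∧ ζ ^ n = 1 ∧ red M ζ = w := by
  obtain ⟨n, hn, h1⟩ := ord' ℓ M hℓ w hw
  have hn0 : n ≠ 0 := by
    rintro rfl
    exact hn (dvd_zero _)
  obtain ⟨a, rfl⟩ := Ideal.Quotient.mk_surjective w
  have ha : IsIntegral ℤ (a : ℂ) := a.2
  have hra : red M (a : ℂ) = Ideal.Quotient.mk M a := red_of ha
  have hprod := congrArg (Polynomial.eval (a : ℂ))
    (Polynomial.X_pow_sub_one_eq_prod (Nat.pos_of_ne_zero hn0) (Complex.isPrimitiveRoot_exp n hn0))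
  rw [Polynomial.eval_sub, Polynomial.eval_pow, Polynomial.eval_X, Polynomial.eval_one,
    Polynomial.eval_prod] at hprod
  have hroot : ∀ ζ ∈ Polynomial.nthRootsFinset n (1 : ℂ), ζ ^ n = 1 := fun ζ hζ =>
    (Polynomial.mem_nthRootsFinset (Nat.pos_of_ne_zero hn0) 1).1 hζ
  have hred := congrArg (red M) hprod
  have hI : ∀ ζ ∈ Polynomial.nthRootsFinset n (1 : ℂ),
      IsIntegral ℤ (Polynomial.eval (a : ℂ) (Polynomial.X - Polynomial.C ζ)) := by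
    intro ζ hζ
    rw [Polynomial.eval_sub, Polynomial.eval_X, Polynomial.eval_C]
    exact ha.sub (isInt_root hn0 (hroot ζ hζ))
  rw [red_prod _ _ hI] at hred
  have hl : red M ((a : ℂ) ^ n - 1) = 0 := by
    have e : red M ((a : ℂ) ^ n - 1 + 1) = red M ((a : ℂ) ^ n - 1) + red M 1 :=
      red_add ((ha.pow n).sub isIntegral_one) isIntegral_one
    rw [sub_add_cancel, red_pow ha, hra, h1, red_one] at e
    exact right_eq_add.1 e
  rw [hl] at hred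
  obtain ⟨ζ, hζ, hz⟩ := Finset.prod_eq_zero_iff.1 hred.symm
  refine ⟨ζ, n, hn, hroot ζ hζ, ?_⟩
  rw [Polynomial.eval_sub, Polynomial.eval_X, Polynomial.eval_C] at hz
  have e : red M ((a : ℂ) - ζ + ζ) = red M ((a : ℂ) - ζ) + red M ζ :=
    red_add (ha.sub (isInt_root hn0 (hroot ζ hζ))) (isInt_root hn0 (hroot ζ hζ))
  rw [sub_add_cancel, hz, zero_add, hra] at e
  exact e.symm

/-- fixed by a power of the Frobenius map modulo `ℓ` -/
def Fx (ℓ : ℕ) (x : integralClosure ℤ ℂ) : Prop :=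
  ∃ h : ℕ, 0 < h ∧ ∃ y : integralClosure ℤ ℂ, x ^ ℓ ^ h = x + ℓ * y

theorem fx_iff (ℓ h : ℕ) (x : integralClosure ℤ ℂ) :
    (∃ y : integralClosure ℤ ℂ, x ^ ℓ ^ h = x + ℓ * y) ↔
      (Ideal.Quotient.mk (Ideal.span {(ℓ : integralClosure ℤ ℂ)}) x) ^ ℓ ^ h =
        Ideal.Quotient.mk (Ideal.span {(ℓ : integralClosure ℤ ℂ)}) x := by
  rw [← map_pow, Ideal.Quotient.eq, Ideal.mem_span_singleton']
  constructor
  · rintro ⟨y, hy⟩
    exact ⟨y, by rw [hy]; ring⟩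
  · rintro ⟨y, hy⟩
    exact ⟨y, by linear_combination -hy⟩

theorem iter {R : Type} [Monoid R] {x : R} {q : ℕ} (h : x ^ q = x) (k : ℕ) : x ^ q ^ k = x := by
  induction k with
  | zero => rw [pow_zero, pow_one]
  | succ k ih => rw [pow_succ, pow_mul, ih, h]

theorem w0_fix (ℓ : ℕ) [hp : Fact ℓ.Prime] (M : Ideal (integralClosure ℤ ℂ)) [M.IsMaximal]
    (hℓ : (ℓ : integralClosure ℤ ℂ) ∈ M) : ∀ z ∈ W0 ℓ, ∃ hz : IsIntegral ℤ z,
      Fx ℓ (⟨z, hz⟩ : integralClosure ℤ ℂ) := by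
  have hch : CharP (integralClosure ℤ ℂ ⧸ Ideal.span {(ℓ : integralClosure ℤ ℂ)}) ℓ := by
    apply CharP.quotient
    intro hu
    exact Ideal.IsMaximal.ne_top ‹_› (Ideal.eq_top_of_isUnit_mem M hℓ hu)
  intro z hz
  refine Subring.closure_induction ?_ ?_ ?_ ?_ ?_ ?_ hz
  · rintro ζ ⟨n, hn, h1⟩
    have hn0 : n ≠ 0 := by
      rintro rfl
      exact hn (dvd_zero _)
    refine ⟨isInt_root hn0 h1, Nat.totient n, Nat.totient_pos.2 (Nat.pos_of_ne_zero hn0), 0, ?_⟩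
    rw [mul_zero, add_zero]
    apply Subtype.ext
    show ζ ^ ℓ ^ Nat.totient n = ζ
    have hc : Nat.Coprime ℓ n := (Nat.Prime.coprime_iff_not_dvd hp.out).2 hn
    have hm := Nat.ModEq.pow_totient hc
    have e := pow_eq_pow_of_modEq hm h1
    rw [e, pow_one]
  · exact ⟨isIntegral_zero, 1, one_pos, 0, by
      rw [mul_zero, add_zero, pow_one]
      exact zero_pow hp.out.ne_zero⟩
  · exact ⟨isIntegral_one, 1, one_pos, 0, by
      rw [mul_zero, add_zero]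
      exact one_pow _⟩
  · rintro x y hx hy ⟨ix, h1, p1, q1⟩ ⟨iy, h2, p2, q2⟩
    refine ⟨ix.add iy, h1 * h2, Nat.mul_pos p1 p2, ?_⟩
    rw [fx_iff] at q1 q2 ⊢
    have q1' := iter q1 h2
    have q2' := iter q2 h1
    rw [← pow_mul] at q1' q2'
    rw [mul_comm h2 h1] at q2'
    have e : (⟨x + y, ix.add iy⟩ : integralClosure ℤ ℂ) = ⟨x, ix⟩ + ⟨y, iy⟩ := rfl
    rw [e, map_add, add_pow_char_pow, q1', q2']
  · rintro x hx ⟨ix, h1, p1, q1⟩
    refine ⟨ix.neg, h1, p1, ?_⟩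
    rw [fx_iff] at q1 ⊢
    have e : (⟨-x, ix.neg⟩ : integralClosure ℤ ℂ) = -⟨x, ix⟩ := rfl
    have e0 : ((0 : integralClosure ℤ ℂ ⧸ Ideal.span {(ℓ : integralClosure ℤ ℂ)}) -
      Ideal.Quotient.mk (Ideal.span {(ℓ : integralClosure ℤ ℂ)}) ⟨x, ix⟩) ^ ℓ ^ h1 =
      0 - Ideal.Quotient.mk (Ideal.span {(ℓ : integralClosure ℤ ℂ)}) ⟨x, ix⟩ := by
      rw [sub_pow_char_pow, q1, zero_pow (pow_ne_zero _ hp.out.ne_zero)]
    rw [zero_sub] at e0
    rw [e, map_neg, e0]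
  · rintro x y hx hy ⟨ix, h1, p1, q1⟩ ⟨iy, h2, p2, q2⟩
    refine ⟨ix.mul iy, h1 * h2, Nat.mul_pos p1 p2, ?_⟩
    rw [fx_iff] at q1 q2 ⊢
    have q1' := iter q1 h2
    have q2' := iter q2 h1
    rw [← pow_mul] at q1' q2'
    rw [mul_comm h2 h1] at q2'
    have e : (⟨x * y, ix.mul iy⟩ : integralClosure ℤ ℂ) = ⟨x, ix⟩ * ⟨y, iy⟩ := rfl
    rw [e, map_mul, mul_pow, q1', q2']

/-- Row TEI. -/
theorem tei : TeiStmt := by
  intro ℓ _ M _ hℓ
  have hp : ℓ.Prime := Fact.out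
  refine ⟨?_, ?_, ?_⟩
  · intro w
    by_cases hw : w = 0
    · exact ⟨0, Subring.zero_mem _, isIntegral_zero, by rw [red_zero, hw], fun _ => rfl⟩
    · obtain ⟨ζ, n, hn, h1, h2⟩ := exists_lift ℓ M hℓ w hw
      have hn0 : n ≠ 0 := by
        rintro rfl
        exact hn (dvd_zero _)
      exact ⟨ζ, Subring.subset_closure ⟨n, hn, h1⟩, isInt_root hn0 h1, h2, fun h => absurd h hw⟩
  · intro z hz
    exact (w0_fix ℓ M hℓ z hz).1
  · intro z hz h0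
    obtain ⟨iz, h, p, y, hy⟩ := w0_fix ℓ M hℓ z hz
    have hy' : z ^ ℓ ^ h = z + ℓ * (y : ℂ) := congrArg Subtype.val hy
    have hq : 1 < ℓ ^ h := Nat.one_lt_pow p.ne' hp.one_lt
    refine ⟨1 - z ^ (ℓ ^ h - 1), -(y : ℂ), isIntegral_one.sub (iz.pow _), ?_, y.2.neg, ?_⟩
    · have e : red M (1 - z ^ (ℓ ^ h - 1) + z ^ (ℓ ^ h - 1)) =
          red M (1 - z ^ (ℓ ^ h - 1)) + red M (z ^ (ℓ ^ h - 1)) :=
        red_add (isIntegral_one.sub (iz.pow _)) (iz.pow _)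
      rw [sub_add_cancel, red_one, red_pow iz, h0, zero_pow (by omega), add_zero] at e
      rw [← e]
      have hnt : Nontrivial (FF M) := Ideal.Quotient.nontrivial_iff.2 (Ideal.IsMaximal.ne_top ‹_›)
      exact one_ne_zero
    · have e : z ^ (ℓ ^ h - 1) * z = z ^ ℓ ^ h := by
        rw [← pow_succ]
        congr 1
        omega
      rw [sub_mul, one_mul, e, hy']
      ring

end Pool.Agent.PP.ML.H43
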